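import Mathlib
import Pool.Agent.Lead.Clique.Count

/-!
# The clique achievement and avoidance numbers of `K_N` for `N = 2 ^ 100`

We prove that for `N = 2 ^ 100` both `A(K_N; clique)` and `A⁻(K_N; clique)` lie in
`{186, 187, 188}`, hence in `{185, 186, 187, 188}`.
-/

namespace Pool.Agent.Results.MP_626b88_co.CliqueTwoPow100

open Finset Nat Pool.Agent.Lead.Clique

/-- The board: the edges of the complete graph `K_N` on the vertex set `Fin N`. -/
abbrev Edge (N : ℕ) : Type := ↥((⊤ : SimpleGraph (Fin N)).edgeSet)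

variable {N : ℕ}

/-- A history of the game is the list of all edges claimed so far, the most recent one FIRST.
The first player made the moves number `0, 2, 4, …`; a move made after the history `h` has number
`h.length`.  `firstEdges h` is the set of edges claimed by the first player. -/
def firstEdges : List (Edge N) → Set (Edge N)
  | [] => ∅
  | e :: h => if Even h.length then insert e (firstEdges h) else firstEdges h

/-- The graph on the vertex set of `K_N` formed by the edges claimed by the first player. -/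
def firstGraph (h : List (Edge N)) : SimpleGraph (Fin N) :=
  SimpleGraph.fromEdgeSet (Subtype.val '' firstEdges h)

/-- A complete play: every edge of `K_N` has been claimed exactly once. -/
def CompletePlay (h : List (Edge N)) : Prop := h.Nodup ∧ ∀ e : Edge N, e ∈ h

/-- A strategy is legal if, whenever some edge is unclaimed, it names an unclaimed edge. -/
def LegalStrategy (σ : List (Edge N) → Edge N) : Prop :=
  ∀ h : List (Edge N), h.Nodup → (∃ e, e ∉ h) → σ h ∉ h

/-- In the history the first player always moved as the strategy `σ` says. -/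
def FirstFollows (σ : List (Edge N) → Edge N) : List (Edge N) → Prop
  | [] => True
  | e :: h => FirstFollows σ h ∧ (Even h.length → e = σ h)

/-- In the history the second player always moved as the strategy `σ` says. -/
def SecondFollows (σ : List (Edge N) → Edge N) : List (Edge N) → Prop
  | [] => True
  | e :: h => SecondFollows σ h ∧ (¬ Even h.length → e = σ h)

/-- Maker (the first player) has a winning strategy in the clique game `(K_N, K_q)`: a legal
strategy such that in every play in which he follows it he owns, at some point `p` of the play, all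
edges of a copy of `K_q`. -/
def MakerWins (N q : ℕ) : Prop :=
  ∃ σ : List (Edge N) → Edge N, LegalStrategy σ ∧
    ∀ h : List (Edge N), CompletePlay h → FirstFollows σ h →
      ∃ p : List (Edge N), p <:+ h ∧ ¬ (firstGraph p).CliqueFree q

/-- Forcer (the second player) has a winning strategy in the Avoider-Forcer clique game: a legal
strategy such that in every play in which he follows it, once all edges are claimed, the graph of
Avoider (the first player) contains a copy of `K_q`. -/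
def ForcerWins (N q : ℕ) : Prop :=
  ∃ σ : List (Edge N) → Edge N, LegalStrategy σ ∧
    ∀ h : List (Edge N), CompletePlay h → SecondFollows σ h → ¬ (firstGraph h).CliqueFree q

lemma firstEdges_eq (h : List (Edge N)) : firstEdges h = (fst h : Set (Edge N)) := by
  induction h with
  | nil => simp [firstEdges, fst]
  | cons e h ih =>
    simp only [firstEdges, fst]
    split_ifs <;> simp [ih]

lemma firstFollows_iff (σ : List (Edge N) → Edge N) (h : List (Edge N)) :
    FirstFollows σ h ↔ FollowsFst σ h := by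
  induction h with
  | nil => simp [FirstFollows, FollowsFst]
  | cons e h ih => simp only [FirstFollows, FollowsFst, ih]

lemma secondFollows_iff (σ : List (Edge N) → Edge N) (h : List (Edge N)) :
    SecondFollows σ h ↔ FollowsSnd σ h := by
  induction h with
  | nil => simp [SecondFollows, FollowsSnd]
  | cons e h ih => simp only [SecondFollows, FollowsSnd, ih]

lemma firstGraph_adj (h : List (Edge N)) (u v : Fin N) :
    (firstGraph h).Adj u v ↔ ∃ x : Edge N, x ∈ fst h ∧ x.1 = s(u, v) := by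
  unfold firstGraph
  rw [SimpleGraph.fromEdgeSet_adj, firstEdges_eq]
  constructor
  · rintro ⟨⟨x, hx, hx'⟩, -⟩; exact ⟨x, by simpa using hx, hx'⟩
  · rintro ⟨x, hx, hx'⟩
    refine ⟨⟨x, by simpa using hx, hx'⟩, ?_⟩
    have := x.2
    rw [hx'] at this
    simpa using this

lemma not_cliqueFree_iff (h : List (Edge N)) (q : ℕ) :
    ¬ (firstGraph h).CliqueFree q ↔
      ∃ C ∈ powersetCard q (univ : Finset (Fin N)), inside C ⊆ fst h := by
  unfold SimpleGraph.CliqueFree
  push Not
  constructor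
  · rintro ⟨C, hC⟩
    refine ⟨C, by rw [mem_powersetCard]; exact ⟨Finset.subset_univ _, hC.card_eq⟩, ?_⟩
    intro e he
    rw [mem_inside] at he
    obtain ⟨e, hE⟩ := e
    induction e with
    | _ a b =>
    simp only [SimpleGraph.mem_edgeSet, SimpleGraph.top_adj] at hE
    have ha : a ∈ C := he a (by simp)
    have hb : b ∈ C := he b (by simp)
    have hadj := hC.isClique ha hb hE
    rw [firstGraph_adj] at hadj
    obtain ⟨x, hx, hx'⟩ := hadj
    have : x = ⟨s(a, b), by simpa using hE⟩ := Subtype.ext hx'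
    rw [← this]; exact hx
  · rintro ⟨C, hC, hsub⟩
    rw [mem_powersetCard] at hC
    refine ⟨C, ?_, hC.2⟩
    intro a ha b hb hab
    rw [firstGraph_adj]
    refine ⟨⟨s(a, b), by simpa using hab⟩, hsub ?_, rfl⟩
    rw [mem_inside]
    intro v hv
    simp only [Sym2.mem_iff] at hv
    rcases hv with rfl | rfl <;> assumption

lemma card_edge (N : ℕ) : Fintype.card (Edge N) = N.choose 2 := by
  classical
  have h := SimpleGraph.card_edgeFinset_top_eq_card_choose_two (V := Fin N)
  rw [SimpleGraph.edgeFinset_card, Fintype.card_fin] at h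
  rw [← h]

/-- Maker's criterion for cliques. -/
theorem maker_clique (N q m : ℕ) (hm : N.choose 2 = 2 * m) (hm0 : 0 < m) (hq : q ≤ N)
    (ε κ : ℝ) (hε0 : 0 ≤ ε) (hκ : 0 < κ)
    (hε : ∀ j, 3 ≤ j → j ≤ q → ((q.choose j : ℝ)) ^ 2 * 2 ^ (j.choose 2) ≤ ε * N.choose j)
    (hnum : κ * ((q + 1) * ε) + m / (16 * κ) < 1) : MakerWins N q := by
  classical
  have hcardE : Fintype.card (Edge N) = 2 * m := by rw [card_edge, hm]
  have : Nonempty (Edge N) := Fintype.card_pos_iff.1 (by rw [hcardE]; omega)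
  set T : ℝ := (N.choose q : ℝ) * (1 / 2) ^ (q.choose 2) with hT
  have hTpos : 0 < T := by
    have : (0 : ℝ) < N.choose q := by exact_mod_cast Nat.choose_pos hq
    positivity
  have hT2 := tw_pairs_le (N := N) q 2 3 hq (by
    intro j hj
    by_contra h
    have : j = 0 ∨ j = 1 ∨ j = 2 := by omega
    rcases this with rfl | rfl | rfl <;> simp at hj) ε hε0 hε
  rw [← hT] at hT2
  obtain ⟨σ, hleg, H⟩ := maker_criterion (powersetCard q (univ : Finset (Fin N))) inside m hcardE
    (κ / T) (by positivity) (by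
      rw [tw_clique, ← hT]
      have h1 : κ / T * tw (prs (powersetCard q (univ : Finset (Fin N))) inside 2) (un inside) ∅ ∅
          ≤ κ / T * (T ^ 2 * ((q + 1) * ε)) := by gcongr
      have h2 : κ / T * (T ^ 2 * ((q + 1) * ε)) = T * (κ * ((q + 1) * ε)) := by
        field_simp
      have h3 : (m : ℝ) / (16 * (κ / T)) = T * (m / (16 * κ)) := by
        field_simp
      rw [h3]
      rw [h2] at h1
      have h4 := mul_lt_mul_of_pos_left hnum hTpos
      linarith)
  refine ⟨σ, hleg, ?_⟩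
  intro h hc hf
  exact ⟨h, List.suffix_rfl, (not_cliqueFree_iff h q).2
    (H h hc.1 hc.2 ((firstFollows_iff σ h).1 hf))⟩

/-- Forcer's criterion for cliques. -/
theorem forcer_clique (N q m : ℕ) (hm : N.choose 2 = 2 * m) (hm0 : 0 < m) (hq : q ≤ N)
    (ε ε' κ κ' : ℝ) (hε0 : 0 ≤ ε) (hε0' : 0 ≤ ε') (hκ : 0 < κ) (hκ' : 0 < κ')
    (hε : ∀ j, 3 ≤ j → j ≤ q → ((q.choose j : ℝ)) ^ 2 * 2 ^ (j.choose 2) ≤ ε * N.choose j)
    (hε' : ∀ j, 2 ≤ j → j ≤ q → ((q.choose j : ℝ)) ^ 2 * 2 ^ (j.choose 2) ≤ ε' * N.choose j)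
    (hnum : 2 * κ * ((q + 1) * ε) + 2 * κ' * ((q + 1) * ε') + m / (16 * κ) + 1 / (8 * κ') < 1) :
    ForcerWins N q := by
  classical
  have hcardE : Fintype.card (Edge N) = 2 * m := by rw [card_edge, hm]
  have : Nonempty (Edge N) := Fintype.card_pos_iff.1 (by rw [hcardE]; omega)
  set T : ℝ := (N.choose q : ℝ) * (1 / 2) ^ (q.choose 2) with hT
  have hTpos : 0 < T := by
    have : (0 : ℝ) < N.choose q := by exact_mod_cast Nat.choose_pos hq
    positivity
  have hT2 := tw_pairs_le (N := N) q 2 3 hq (by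
    intro j hj
    by_contra h
    have : j = 0 ∨ j = 1 ∨ j = 2 := by omega
    rcases this with rfl | rfl | rfl <;> simp at hj) ε hε0 hε
  have hT1 := tw_pairs_le (N := N) q 1 2 hq (by
    intro j hj
    by_contra h
    have : j = 0 ∨ j = 1 := by omega
    rcases this with rfl | rfl <;> simp at hj) ε' hε0' hε'
  rw [← hT] at hT2 hT1
  obtain ⟨σ, hleg, H⟩ := forcer_criterion (powersetCard q (univ : Finset (Fin N))) inside m hcardE
    (κ / T) (κ' / T) (by positivity) (by positivity) (by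
      rw [tw_clique, ← hT]
      have h1 : 2 * (κ / T) *
          tw (prs (powersetCard q (univ : Finset (Fin N))) inside 2) (un inside) ∅ ∅
          ≤ 2 * (κ / T) * (T ^ 2 * ((q + 1) * ε)) := by gcongr
      have h2 : 2 * (κ / T) * (T ^ 2 * ((q + 1) * ε)) = T * (2 * κ * ((q + 1) * ε)) := by
        field_simp
      have h1' : 2 * (κ' / T) *
          tw (prs (powersetCard q (univ : Finset (Fin N))) inside 1) (un inside) ∅ ∅
          ≤ 2 * (κ' / T) * (T ^ 2 * ((q + 1) * ε')) := by gcongr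
      have h2' : 2 * (κ' / T) * (T ^ 2 * ((q + 1) * ε')) = T * (2 * κ' * ((q + 1) * ε')) := by
        field_simp
      have h3 : (m : ℝ) / (16 * (κ / T)) = T * (m / (16 * κ)) := by
        field_simp
      have h3' : (1 : ℝ) / (8 * (κ' / T)) = T * (1 / (8 * κ')) := by
        field_simp
      rw [h3, h3']
      rw [h2] at h1
      rw [h2'] at h1'
      have h4 := mul_lt_mul_of_pos_left hnum hTpos
      linarith)
  refine ⟨σ, hleg, ?_⟩
  intro h hc hf
  exact (not_cliqueFree_iff h q).2 (H h hc.1 hc.2 ((secondFollows_iff σ h).1 hf))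

/-- Breaker's criterion for cliques. -/
theorem not_maker_clique (N q m : ℕ) (hm : N.choose 2 = 2 * m) (hm0 : 0 < m)
    (hnum : 2 * ((N.choose q : ℝ) * (1 / 2) ^ (q.choose 2)) < 1) : ¬ MakerWins N q := by
  classical
  have hcardE : Fintype.card (Edge N) = 2 * m := by rw [card_edge, hm]
  have : Nonempty (Edge N) := Fintype.card_pos_iff.1 (by rw [hcardE]; omega)
  obtain ⟨τ, hτ, Hτ⟩ := breaker_criterion (powersetCard q (univ : Finset (Fin N))) inside m hcardE
    (by rw [tw_clique]; exact hnum)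
  rintro ⟨σ, hσ, Hσ⟩
  obtain ⟨h, hnd, hall, h1, h2⟩ := exists_play σ τ hσ hτ
  obtain ⟨p, hp, hcf⟩ := Hσ h ⟨hnd, hall⟩ ((firstFollows_iff σ h).2 h1)
  obtain ⟨C, hC, hsub⟩ := (not_cliqueFree_iff p q).1 hcf
  refine Hτ h hnd hall h2 C hC (hsub.trans ?_)
  clear hsub hcf Hσ Hτ h1 h2 hall hnd
  obtain ⟨t, rfl⟩ := hp
  induction t with
  | nil => simp
  | cons a t ih =>
    rw [List.cons_append]
    simp only [fst]
    split_ifs
    · exact ih.trans (Finset.subset_insert _ _)
    · exact ih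

/-- Avoider's criterion for cliques. -/
theorem not_forcer_clique (N q m : ℕ) (hm : N.choose 2 = 2 * m) (hm0 : 0 < m)
    (hnum : 2 * ((N.choose q : ℝ) * (1 / 2) ^ (q.choose 2)) < 1) : ¬ ForcerWins N q := by
  classical
  have hcardE : Fintype.card (Edge N) = 2 * m := by rw [card_edge, hm]
  have : Nonempty (Edge N) := Fintype.card_pos_iff.1 (by rw [hcardE]; omega)
  have h0 : (0 : ℝ) ≤ (N.choose q : ℝ) * (1 / 2) ^ (q.choose 2) := by positivity
  obtain ⟨τ, hτ, Hτ⟩ := avoider_criterion (powersetCard q (univ : Finset (Fin N))) inside m hcardE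
    (by rw [tw_clique]; linarith)
  rintro ⟨σ, hσ, Hσ⟩
  obtain ⟨h, hnd, hall, h1, h2⟩ := exists_play τ σ hτ hσ
  obtain ⟨C, hC, hsub⟩ := (not_cliqueFree_iff h q).1
    (Hσ h ⟨hnd, hall⟩ ((secondFollows_iff σ h).2 h2))
  exact Hτ h hnd hall h1 C hC hsub

lemma makerWins_mono {N q q' : ℕ} (h : q ≤ q') (H : MakerWins N q') : MakerWins N q := by
  obtain ⟨σ, hσ, Hσ⟩ := H
  refine ⟨σ, hσ, fun h' hc hf => ?_⟩
  obtain ⟨p, hp, hcf⟩ := Hσ h' hc hf
  exact ⟨p, hp, fun H' => hcf (H'.mono h)⟩

lemma forcerWins_mono {N q q' : ℕ} (h : q ≤ q') (H : ForcerWins N q') : ForcerWins N q := by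
  obtain ⟨σ, hσ, Hσ⟩ := H
  exact ⟨σ, hσ, fun h' hc hf H' => Hσ h' hc hf (H'.mono h)⟩

/-! ### Numerical facts -/

lemma num3 : ∀ i < 184, ((186).descFactorial (i + 3) / (i + 3)!) ^ 2 * (i + 3)! *
    2 ^ ((i + 3) * (i + 2) / 2) * 2 ^ 240 ≤ (2 ^ 100 - 185) ^ (i + 3) := by
  decide +kernel

lemma num2 : ∀ i < 185, ((186).descFactorial (i + 2) / (i + 2)!) ^ 2 * (i + 2)! *
    2 ^ ((i + 2) * (i + 1) / 2) * 2 ^ 150 ≤ (2 ^ 100 - 185) ^ (i + 2) := by
  decide +kernel

lemma num189 : 2 * (2 ^ 100) ^ 189 < (189)! * 2 ^ (189 * 188 / 2) := by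
  decide +kernel

lemma choose_bound (j b : ℕ) (hj : j ≤ 186)
    (h : ((186).descFactorial j / j !) ^ 2 * j ! * 2 ^ (j.choose 2) * 2 ^ b
      ≤ (2 ^ 100 - 185) ^ j) :
    (((186).choose j : ℝ)) ^ 2 * 2 ^ (j.choose 2) ≤ (1 / 2 : ℝ) ^ b * (2 ^ 100 : ℕ).choose j := by
  have h1 : (2 ^ 100 - 185) ^ j ≤ (2 ^ 100 : ℕ).descFactorial j :=
    (Nat.pow_le_pow_left (by omega) j).trans (Nat.pow_sub_le_descFactorial (2 ^ 100) j)
  rw [Nat.descFactorial_eq_factorial_mul_choose] at h1
  rw [← Nat.choose_eq_descFactorial_div_factorial] at h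
  have h2 : ((186).choose j) ^ 2 * 2 ^ (j.choose 2) * 2 ^ b ≤ (2 ^ 100 : ℕ).choose j := by
    apply le_of_mul_le_mul_left _ (Nat.factorial_pos j)
    calc j ! * (((186).choose j) ^ 2 * 2 ^ (j.choose 2) * 2 ^ b)
        = ((186).choose j) ^ 2 * j ! * 2 ^ (j.choose 2) * 2 ^ b := by ring
      _ ≤ (2 ^ 100 - 185) ^ j := h
      _ ≤ j ! * (2 ^ 100 : ℕ).choose j := h1
  have h3 : (((186).choose j : ℝ)) ^ 2 * 2 ^ (j.choose 2) * 2 ^ b ≤ (2 ^ 100 : ℕ).choose j := by
    exact_mod_cast h2
  have h4 : (1 / 2 : ℝ) ^ b = ((2 : ℝ) ^ b)⁻¹ := by rw [← inv_pow]; norm_num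
  rw [h4, ← div_eq_inv_mul, le_div_iff₀ (by positivity)]
  exact h3

lemma bound3 (j : ℕ) (h3 : 3 ≤ j) (hj : j ≤ 186) :
    (((186).choose j : ℝ)) ^ 2 * 2 ^ (j.choose 2) ≤
      (1 / 2 : ℝ) ^ 240 * (2 ^ 100 : ℕ).choose j := by
  obtain ⟨i, rfl⟩ := Nat.exists_eq_add_of_le' h3
  apply choose_bound _ _ hj
  have := num3 i (by omega)
  rw [Nat.choose_two_right]
  exact this

lemma bound2 (j : ℕ) (h2 : 2 ≤ j) (hj : j ≤ 186) :
    (((186).choose j : ℝ)) ^ 2 * 2 ^ (j.choose 2) ≤
      (1 / 2 : ℝ) ^ 150 * (2 ^ 100 : ℕ).choose j := by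
  obtain ⟨i, rfl⟩ := Nat.exists_eq_add_of_le' h2
  apply choose_bound _ _ hj
  have := num2 i (by omega)
  rw [Nat.choose_two_right]
  exact this

lemma half_board : (2 ^ 100 : ℕ).choose 2 = 2 * (2 ^ 98 * (2 ^ 100 - 1)) := by
  rw [Nat.choose_two_right]; norm_num

lemma upper189 :
    2 * (((2 ^ 100 : ℕ).choose 189 : ℝ) * (1 / 2) ^ ((189).choose 2)) < 1 := by
  have h1 := Nat.choose_le_pow_div (α := ℝ) 189 (2 ^ 100)
  have h2 : ((189).choose 2) = 189 * 188 / 2 := by rw [Nat.choose_two_right]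
  have h3 : (2 * ((2 ^ 100 : ℕ) : ℝ) ^ 189) < ((189)! : ℝ) * 2 ^ (189 * 188 / 2) := by
    exact_mod_cast num189
  have h4 : (1 / 2 : ℝ) ^ (189 * 188 / 2) = ((2 : ℝ) ^ (189 * 188 / 2))⁻¹ := by
    rw [← inv_pow]; norm_num
  rw [h2, h4, ← mul_assoc, ← div_eq_mul_inv, div_lt_one (by positivity)]
  have h5 : (0 : ℝ) < ((189)! : ℝ) := by exact_mod_cast Nat.factorial_pos 189
  calc 2 * ((2 ^ 100 : ℕ).choose 189 : ℝ) ≤ 2 * (((2 ^ 100 : ℕ) : ℝ) ^ 189 / ((189)! : ℝ)) := by
        linarith
    _ = (2 * ((2 ^ 100 : ℕ) : ℝ) ^ 189) / ((189)! : ℝ) := by ring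
    _ < 2 ^ (189 * 188 / 2) := by
        rw [div_lt_iff₀ h5, mul_comm (2 ^ (189 * 188 / 2)) _]
        exact h3

/-- **Question 2 of the problem, in a sharper form.**  For `N = 2 ^ 100`, the clique achievement
number `A(K_N; clique)` (the largest `q` for which Maker wins the clique game `(K_N, K_q)`) and the
clique avoidance number `A⁻(K_N; clique)` (the largest `q` for which Forcer wins the
Avoider-Forcer clique game) exist and both lie in `{186, 187, 188}`. -/
theorem result :
    (∃ a : ℕ, IsGreatest {q : ℕ | MakerWins (2 ^ 100) q} a ∧ 186 ≤ a ∧ a ≤ 188) ∧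
    (∃ b : ℕ, IsGreatest {q : ℕ | ForcerWins (2 ^ 100) q} b ∧ 186 ≤ b ∧ b ≤ 188) := by
  have hm := half_board
  have hm0 : 0 < 2 ^ 98 * (2 ^ 100 - 1) := by norm_num
  have hq : 186 ≤ 2 ^ 100 := by norm_num
  have hM : MakerWins (2 ^ 100) 186 := by
    refine maker_clique (2 ^ 100) 186 _ hm hm0 hq ((1 / 2) ^ 240) (2 ^ 210) (by positivity)
      (by positivity) bound3 ?_
    push_cast
    norm_num
  have hF : ForcerWins (2 ^ 100) 186 := by
    refine forcer_clique (2 ^ 100) 186 _ hm hm0 hq ((1 / 2) ^ 240) ((1 / 2) ^ 150) (2 ^ 210)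
      (2 ^ 100) (by positivity) (by positivity) (by positivity) (by positivity) bound3 bound2 ?_
    push_cast
    norm_num
  have hM' : ∀ q, MakerWins (2 ^ 100) q → q ≤ 188 := by
    intro q H
    by_contra hlt
    exact not_maker_clique (2 ^ 100) 189 _ hm hm0 upper189 (makerWins_mono (by omega) H)
  have hF' : ∀ q, ForcerWins (2 ^ 100) q → q ≤ 188 := by
    intro q H
    by_contra hlt
    exact not_forcer_clique (2 ^ 100) 189 _ hm hm0 upper189 (forcerWins_mono (by omega) H)
  constructor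
  · have hne : {q : ℕ | MakerWins (2 ^ 100) q}.Nonempty := ⟨186, hM⟩
    have hbdd : BddAbove {q : ℕ | MakerWins (2 ^ 100) q} := ⟨188, fun q hq => hM' q hq⟩
    have hmem := Nat.sSup_mem hne hbdd
    exact ⟨_, ⟨hmem, fun q hq => le_csSup hbdd hq⟩, le_csSup hbdd hM, hM' _ hmem⟩
  · have hne : {q : ℕ | ForcerWins (2 ^ 100) q}.Nonempty := ⟨186, hF⟩
    have hbdd : BddAbove {q : ℕ | ForcerWins (2 ^ 100) q} := ⟨188, fun q hq => hF' q hq⟩
    have hmem := Nat.sSup_mem hne hbdd
    exact ⟨_, ⟨hmem, fun q hq => le_csSup hbdd hq⟩, le_csSup hbdd hF, hF' _ hmem⟩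

end Pool.Agent.Results.MP_626b88_co.CliqueTwoPow100
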